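import Pool.Agent.Helper80.MM.Stm
import Pool.Graph.R_seed8.TH456.TM.Inst

/-!
# Project MM, package PIM: the measure of `π`
-/

set_option autoImplicit false

namespace Pool.Agent.Helper76.MM

open Pool.Agent.Helper80.MM

theorem fin1 (m : Fin 1 →₀ ℕ) : m = Finsupp.single 0 (m 0) := by
  refine Finsupp.ext fun i => ?_
  rw [Subsingleton.elim i 0]
  simp

theorem deg1 {d : ℕ} {P : MvPolynomial (Fin 1) ℤ} (h : P.totalDegree ≤ d) (m : Fin 1 →₀ ℕ)
    (hm : P.coeff m ≠ 0) : m 0 ≤ d := by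
  have h1 := MvPolynomial.le_totalDegree (MvPolynomial.mem_support_iff.2 hm)
  have h2 : (m.sum fun _ e => e) = m 0 := by
    rw [Finsupp.sum_fintype _ _ (fun _ => rfl)]
    simp
  omega

/-- the polynomial in one variable -/
noncomputable def uni (d : ℕ) (P : MvPolynomial (Fin 1) ℤ) : Polynomial ℤ :=
  ∑ j ∈ Finset.range (d + 1), Polynomial.monomial j (P.coeff (Finsupp.single 0 j))

theorem uni_coeff (d : ℕ) (P : MvPolynomial (Fin 1) ℤ) (j : ℕ) :
    (uni d P).coeff j = if j < d + 1 then P.coeff (Finsupp.single 0 j) else 0 := by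
  unfold uni
  rw [Polynomial.finsetSum_coeff]
  simp only [Polynomial.coeff_monomial]
  rw [Finset.sum_ite_eq' (Finset.range (d + 1)) j]
  simp

theorem uni_eval (d : ℕ) (P : MvPolynomial (Fin 1) ℤ) (h : P.totalDegree ≤ d) (x : ℝ) :
    Polynomial.aeval (x : ℂ) (uni d P) = ((MvPolynomial.aeval ![x] P : ℝ) : ℂ) := by
  have h1 : MvPolynomial.aeval ![x] P = ∑ m ∈ P.support, ((P.coeff m : ℤ) : ℝ) * x ^ (m 0) := by
    rw [MvPolynomial.aeval_def, MvPolynomial.eval₂_eq']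
    refine Finset.sum_congr rfl fun m _ => ?_
    simp
  have h2 : ∑ m ∈ P.support, ((P.coeff m : ℤ) : ℝ) * x ^ (m 0) =
      ∑ j ∈ Finset.range (d + 1), ((P.coeff (Finsupp.single 0 j) : ℤ) : ℝ) * x ^ j := by
    refine (Finset.sum_subset (s₁ := P.support)
      (s₂ := (Finset.range (d + 1)).image fun j => (Finsupp.single 0 j : Fin 1 →₀ ℕ)) ?_ ?_).trans ?_
    · intro m hm
      rw [Finset.mem_image]
      exact ⟨m 0, Finset.mem_range.2 (by
        have := deg1 h m (MvPolynomial.mem_support_iff.1 hm); omega), (fin1 m).symm⟩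
    · intro m _ hm
      rw [MvPolynomial.notMem_support_iff.1 hm]
      simp
    · rw [Finset.sum_image]
      · refine Finset.sum_congr rfl fun j _ => ?_
        simp
      · intro a _ b _ hab
        have := DFunLike.congr_fun hab (0 : Fin 1)
        simpa using this
  rw [h1, h2]
  unfold uni
  rw [map_sum]
  push_cast
  refine Finset.sum_congr rfl fun j _ => ?_
  rw [Polynomial.aeval_monomial]
  simp

theorem pim : S_PIM := by
  intro d
  obtain ⟨κ, c, hκ, hc, h⟩ := Pool.Agent.TH456.TM.measT_pi d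
  obtain ⟨N, hN⟩ := pow_unbounded_of_one_lt (1 / c) (one_lt_two (α := ℝ))
  refine ⟨⌈κ⌉₊ + N, fun H hH P hP hd hco => ?_⟩
  have hH' : (2 : ℝ) ≤ (H : ℝ) := by exact_mod_cast hH
  have h0 : uni d P ≠ 0 := by
    intro h0
    apply hP
    ext m
    by_contra hm
    rw [MvPolynomial.coeff_zero] at hm
    have h1 := congrArg (fun p => Polynomial.coeff p (m 0)) h0
    simp only [uni_coeff, Polynomial.coeff_zero] at h1
    rw [if_pos (by have := deg1 hd m hm; omega), ← fin1] at h1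
    exact hm h1
  have h1 : (uni d P).natDegree ≤ d := by
    rw [Polynomial.natDegree_le_iff_coeff_eq_zero]
    intro j hj
    rw [uni_coeff, if_neg (by omega)]
  have h2 : ∀ j, |((uni d P).coeff j : ℝ)| ≤ (H : ℝ) := by
    intro j
    rw [uni_coeff]
    split_ifs
    · exact_mod_cast hco _
    · simp
  have h3 := h _ h0 h1 (H : ℝ) (by linarith) h2
  rw [uni_eval d P hd, Complex.norm_real, Real.norm_eq_abs] at h3
  set y := |MvPolynomial.aeval ![Real.pi] P| with hy
  have hy0 : 0 ≤ y := abs_nonneg _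
  have h4 : (H : ℝ) ^ κ ≤ (H : ℝ) ^ ⌈κ⌉₊ := by
    rw [← Real.rpow_natCast]
    exact Real.rpow_le_rpow_of_exponent_le (by linarith) (Nat.le_ceil κ)
  have h5 : (2 : ℝ) ^ N ≤ (H : ℝ) ^ N := pow_le_pow_left₀ (by norm_num) hH' N
  have h6 : 1 ≤ c * (H : ℝ) ^ N := by
    rw [div_lt_iff₀ hc] at hN
    nlinarith
  have h7 : c ≤ (H : ℝ) ^ ⌈κ⌉₊ * y := h3.trans (mul_le_mul_of_nonneg_right h4 hy0)
  calc (1 : ℝ) ≤ c * (H : ℝ) ^ N := h6
    _ ≤ ((H : ℝ) ^ ⌈κ⌉₊ * y) * (H : ℝ) ^ N := mul_le_mul_of_nonneg_right h7 (by positivity)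
    _ = y * (H : ℝ) ^ (⌈κ⌉₊ + N) := by rw [pow_add]; ring

end Pool.Agent.Helper76.MM
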